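import Mathlib

/-!
# Generalised Vandermonde determinants with positive nodes (Descartes)
-/

set_option autoImplicit false

open Polynomial

namespace Pool.Agent.FSX.H34

/-- a polynomial with at most `m + 1` terms has at most `m` sign variations -/
theorem signVar_lt {P : ℝ[X]} : ∀ m : ℕ, P.support.card ≤ m + 1 → P.signVariations ≤ m := by
  intro m
  induction m generalizing P with
  | zero =>
    intro h
    rcases Polynomial.card_support_le_one_iff_monomial.mp h with ⟨n, a, rfl⟩
    simp
  | succ m ih =>
    intro h
    refine (Polynomial.signVariations_le_eraseLead_succ (P := P)).trans ?_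
    have h1 : P.eraseLead.support.card ≤ m + 1 := by
      have := Polynomial.card_support_eraseLead' (f := P) (c := P.support.card - 1)
      by_cases hP : P = 0
      · subst hP; simp
      · have hlt := Polynomial.eraseLead_support_card_lt hP
        omega
    exact Nat.succ_le_succ (ih h1)

/-- generalised Vandermonde determinant, positive real nodes -/
theorem gvdR {b : ℕ} (a : Fin b → ℝ) (ha : Function.Injective a) (hpos : ∀ i, 0 < a i)
    (e : Fin b → ℕ) (he : Function.Injective e) :
    (Matrix.of fun i k : Fin b => a i ^ e k).det ≠ 0 := by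
  classical
  intro h0
  obtain ⟨c, hc0, hc⟩ := Matrix.exists_mulVec_eq_zero_iff.mpr h0
  let P : ℝ[X] := ∑ k, Polynomial.monomial (e k) (c k)
  have hroot : ∀ i, P.eval (a i) = 0 := by
    intro i
    have := congrFun hc i
    simp only [Matrix.mulVec, dotProduct, Matrix.of_apply, Pi.zero_apply] at this
    simp only [P, Polynomial.eval_finsetSum, Polynomial.eval_monomial]
    rw [← this]
    exact Finset.sum_congr rfl fun k _ => mul_comm _ _
  have hcoef : ∀ k, P.coeff (e k) = c k := by
    intro k
    simp only [P, Polynomial.finsetSum_coeff, Polynomial.coeff_monomial]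
    rw [Finset.sum_eq_single k]
    · simp
    · intro k' _ hk'
      rw [if_neg fun h => hk' (he h)]
    · intro h; exact absurd (Finset.mem_univ k) h
  have hP : P ≠ 0 := by
    intro h
    apply hc0
    ext k
    rw [← hcoef k, h, Polynomial.coeff_zero, Pi.zero_apply]
  have hb : 0 < b := by
    rcases Nat.eq_zero_or_pos b with h | h
    · subst h
      exact absurd (Subsingleton.elim _ _) hc0
    · exact h
  have hsup : P.support.card ≤ (b - 1) + 1 := by
    have hsub : P.support ⊆ Finset.univ.image e := by
      intro j hj
      rw [Polynomial.mem_support_iff] at hj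
      by_contra hno
      apply hj
      simp only [P, Polynomial.finsetSum_coeff, Polynomial.coeff_monomial]
      refine Finset.sum_eq_zero fun k _ => ?_
      rw [if_neg]
      intro h
      exact hno (Finset.mem_image.mpr ⟨k, Finset.mem_univ k, h⟩)
    have h1 := Finset.card_le_card hsub
    have h2 : (Finset.univ.image e).card ≤ b := by
      refine Finset.card_image_le.trans ?_
      simp
    omega
  have h3 := signVar_lt (P := P) (b - 1) hsup
  have h4 := Polynomial.roots_countP_pos_le_signVariations (P := P)
  have h5 : b ≤ P.roots.countP (0 < ·) := by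
    have hle : (Finset.univ.image a).val ≤ P.roots.filter (0 < ·) := by
      rw [Multiset.le_iff_subset (Finset.nodup _)]
      intro x hx
      rw [Finset.mem_val, Finset.mem_image] at hx
      obtain ⟨i, -, rfl⟩ := hx
      rw [Multiset.mem_filter, Polynomial.mem_roots hP]
      exact ⟨hroot i, hpos i⟩
    have h6 := Multiset.card_le_card hle
    rw [Finset.card_val, Finset.card_image_of_injective _ ha, Finset.card_univ,
      Fintype.card_fin, ← Multiset.countP_eq_card_filter] at h6
    exact h6
  omega

/-- generalised Vandermonde determinant, positive integer nodes, any field of characteristic 0 -/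
theorem gvd {K : Type*} [Field K] [CharZero K] {b : ℕ} (a : Fin b → ℕ)
    (ha : Function.Injective a) (hpos : ∀ i, 0 < a i) (e : Fin b → ℕ)
    (he : Function.Injective e) :
    (Matrix.of fun i k : Fin b => (a i : K) ^ e k).det ≠ 0 := by
  have h1 : (Matrix.of fun i k : Fin b => ((a i : ℤ)) ^ e k).det ≠ 0 := by
    intro h
    have h2 := gvdR (fun i => (a i : ℝ)) (fun i j hij => ha (Nat.cast_injective hij))
      (fun i => Nat.cast_pos.mpr (hpos i)) e he
    apply h2
    have h3 := congrArg (Int.castRingHom ℝ) h
    rw [RingHom.map_det, map_zero] at h3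
    rw [← h3]
    congr 1
    ext i k
    simp
  intro h
  apply h1
  have h3 : (Int.castRingHom K) (Matrix.of fun i k : Fin b => ((a i : ℤ)) ^ e k).det = 0 := by
    rw [RingHom.map_det, ← h]
    congr 1
    ext i k
    simp
  have h4 : (((Matrix.of fun i k : Fin b => ((a i : ℤ)) ^ e k).det : ℤ) : K) = 0 := h3
  exact_mod_cast h4

/-- a subspace of dimension `b` of `K[X]` contains `b` elements with different orders at `0` -/
theorem exists_orders {K : Type*} [Field K] : ∀ (b : ℕ) (V : Submodule K K[X]),
    FiniteDimensional K V → Module.finrank K V = b →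
    ∃ q : Fin b → K[X], (∀ k, q k ∈ V) ∧ (∀ k, q k ≠ 0) ∧
      Function.Injective fun k => (q k).natTrailingDegree := by
  classical
  intro b
  induction b with
  | zero =>
    intro V _ _
    exact ⟨fun k => 0, fun k => k.elim0, fun k => k.elim0, fun k => k.elim0⟩
  | succ b ih =>
    intro V hfin hrank
    have hne : ∃ j : ℕ, ∃ v ∈ V, v ≠ 0 ∧ v.natTrailingDegree = j := by
      have hV : V ≠ ⊥ := by
        rintro rfl
        rw [finrank_bot] at hrank
        omega
      obtain ⟨v, hv, hv0⟩ := (Submodule.ne_bot_iff V).mp hV
      exact ⟨_, v, hv, hv0, rfl⟩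
    obtain ⟨v, hv, hv0, hvj⟩ := Nat.find_spec hne
    set j := Nat.find hne with hj
    have hmin : ∀ u ∈ V, u ≠ 0 → j ≤ u.natTrailingDegree := fun u hu hu0 =>
      Nat.find_min' hne ⟨u, hu, hu0, rfl⟩
    have hvc : v.coeff j ≠ 0 := by
      rw [← hvj]
      exact Polynomial.trailingCoeff_nonzero_iff_nonzero.mpr hv0
    let f : V →ₗ[K] K := (Polynomial.lcoeff K j).comp V.subtype
    have hf : f ≠ 0 := by
      intro h
      apply hvc
      have := LinearMap.congr_fun h ⟨v, hv⟩
      simpa [f] using this
    let V' : Submodule K K[X] := (LinearMap.ker f).map V.subtype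
    have hV'V : V' ≤ V := by
      rintro _ ⟨u, -, rfl⟩
      exact u.2
    have hV'c : ∀ u ∈ V', u.coeff j = 0 := by
      rintro _ ⟨u, hu, rfl⟩
      have : f u = 0 := hu
      simpa [f] using this
    have hfin' : FiniteDimensional K V' := Submodule.finiteDimensional_of_le hV'V
    have hrank' : Module.finrank K V' = b := by
      have h1 : Module.finrank K V' = Module.finrank K (LinearMap.ker f) :=
        Submodule.finrank_map_subtype_eq V (LinearMap.ker f)
      have h2 := LinearMap.finrank_range_add_finrank_ker f
      have h3 : Module.finrank K (LinearMap.range f) = 1 := by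
        rw [LinearMap.range_eq_top.mpr (LinearMap.surjective hf), finrank_top,
          Module.finrank_self]
      omega
    obtain ⟨q, hq, hq0, hqi⟩ := ih V' hfin' hrank'
    have hgt : ∀ k, j < (q k).natTrailingDegree := by
      intro k
      refine lt_of_le_of_ne (hmin _ (hV'V (hq k)) (hq0 k)) fun h => ?_
      have h1 := hV'c _ (hq k)
      rw [h] at h1
      exact Polynomial.trailingCoeff_nonzero_iff_nonzero.mpr (hq0 k) h1
    refine ⟨Fin.cons v q, ?_, ?_, ?_⟩
    · intro k
      refine Fin.cases ?_ (fun k => ?_) k
      · simpa using hv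
      · simpa using hV'V (hq k)
    · intro k
      refine Fin.cases ?_ (fun k => ?_) k
      · simpa using hv0
      · simpa using hq0 k
    · intro k l
      refine Fin.cases ?_ (fun k => ?_) k <;> refine Fin.cases ?_ (fun l => ?_) l
      · intro _; rfl
      · intro h
        simp only [Fin.cons_zero, Fin.cons_succ] at h
        have := hgt l
        omega
      · intro h
        simp only [Fin.cons_zero, Fin.cons_succ] at h
        have := hgt k
        omega
      · intro h
        simp only [Fin.cons_succ] at h
        rw [hqi h]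

/-- **Lemma 3.** -/
theorem det_comp_ne_zero {K : Type*} [Field K] [CharZero K] {b : ℕ} (p : Fin b → K[X])
    (hp : LinearIndependent K p) (a : Fin b → ℕ) (ha : Function.Injective a)
    (hpos : ∀ i, 0 < a i) :
    (Matrix.of fun i k : Fin b => (p k).comp (C (a i : K) * X)).det ≠ 0 := by
  classical
  intro h0
  have hfin : FiniteDimensional K (Submodule.span K (Set.range p)) :=
    FiniteDimensional.span_of_finite K (Set.finite_range p)
  have hrank : Module.finrank K (Submodule.span K (Set.range p)) = b := by
    rw [finrank_span_eq_card hp, Fintype.card_fin]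
  obtain ⟨q, hq, hq0, hqi⟩ := exists_orders b _ hfin hrank
  have hG : ∀ k, ∃ g : Fin b → K, ∑ l, g l • p l = q k := fun k =>
    (Submodule.mem_span_range_iff_exists_fun K).mp (hq k)
  choose G hG using hG
  have hdet : (Matrix.of fun i k : Fin b => (q k).comp (C (a i : K) * X)).det = 0 := by
    have e : (Matrix.of fun i k : Fin b => (q k).comp (C (a i : K) * X)) =
        (Matrix.of fun i k : Fin b => (p k).comp (C (a i : K) * X)) *
          (Matrix.of fun l k : Fin b => C (G k l)) := by
      ext1 i k
      rw [Matrix.mul_apply]
      simp only [Matrix.of_apply]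
      rw [← hG k]
      change Polynomial.compRingHom (C (a i : K) * X) (∑ l, G k l • p l) = _
      rw [map_sum]
      refine Finset.sum_congr rfl fun l _ => ?_
      rw [Polynomial.coe_compRingHom_apply, Polynomial.smul_comp, Polynomial.smul_eq_C_mul,
        mul_comm]
    rw [e, Matrix.det_mul, h0, zero_mul]
  have hfac : ∀ k, ∃ s : K[X], q k = X ^ (q k).natTrailingDegree * s ∧ s.eval 0 ≠ 0 := by
    intro k
    have hdvd : X ^ (q k).natTrailingDegree ∣ q k := Polynomial.X_pow_dvd_iff.mpr
      (fun d hd => Polynomial.coeff_eq_zero_of_lt_natTrailingDegree hd)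
    obtain ⟨s, hs⟩ := hdvd
    refine ⟨s, hs, ?_⟩
    have h1 : (q k).coeff (q k).natTrailingDegree ≠ 0 :=
      Polynomial.trailingCoeff_nonzero_iff_nonzero.mpr (hq0 k)
    rw [← Polynomial.coeff_zero_eq_eval_zero]
    intro h2
    apply h1
    have h3 := Polynomial.coeff_X_pow_mul s (q k).natTrailingDegree 0
    rw [zero_add, ← hs] at h3
    rw [h3, h2]
  choose s hs hs0 using hfac
  let e : Fin b → ℕ := fun k => (q k).natTrailingDegree
  have e1 : (Matrix.of fun i k : Fin b => (q k).comp (C (a i : K) * X)) =
      Matrix.of fun i k : Fin b => (X : K[X]) ^ e k *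
        (Matrix.of fun i k : Fin b => C ((a i : K) ^ e k) * (s k).comp (C (a i : K) * X)) i k := by
    ext1 i k
    simp only [Matrix.of_apply]
    conv_lhs => rw [hs k]
    rw [Polynomial.mul_comp, Polynomial.X_pow_comp, mul_pow, ← Polynomial.C_pow]
    ring
  rw [e1, Matrix.det_mul_row] at hdet
  have h2 : (Matrix.of fun i k : Fin b =>
      C ((a i : K) ^ e k) * (s k).comp (C (a i : K) * X)).det = 0 := by
    rcases mul_eq_zero.mp hdet with h | h
    · exfalso
      rw [Finset.prod_eq_zero_iff] at h
      obtain ⟨k, -, hk⟩ := h
      exact pow_ne_zero _ Polynomial.X_ne_zero hk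
    · exact h
  have h3 := congrArg (Polynomial.evalRingHom (0 : K)) h2
  rw [RingHom.map_det, map_zero] at h3
  have e2 : (Polynomial.evalRingHom (0 : K)).mapMatrix (Matrix.of fun i k : Fin b =>
      C ((a i : K) ^ e k) * (s k).comp (C (a i : K) * X)) =
      Matrix.of fun i k : Fin b => (s k).eval 0 *
        (Matrix.of fun i k : Fin b => (a i : K) ^ e k) i k := by
    ext1 i k
    simp [Polynomial.eval_comp, mul_comm]
  rw [e2, Matrix.det_mul_row] at h3
  rcases mul_eq_zero.mp h3 with h | h
  · rw [Finset.prod_eq_zero_iff] at h
    obtain ⟨k, -, hk⟩ := h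
    exact hs0 k hk
  · exact gvd a ha hpos e hqi h

end Pool.Agent.FSX.H34
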